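import Pool.Agent.Helper53.FJ.Bad

/-!
# The product of the primes which divide exactly one difference
-/

set_option autoImplicit false

open Finset

namespace Pool.Agent.Helper53.FJ

/-- The odd prime `p` divides exactly one of the differences `a i - a j`, `i < j`. -/
def Weak {n : ℕ} (a : Fin n → ℤ) (p : ℕ) : Prop :=
  p.Prime ∧ p ≠ 2 ∧ ∃ i j, i < j ∧ (p : ℤ) ∣ a i - a j ∧
    ∀ k l, k < l → (p : ℤ) ∣ a k - a l → k = i ∧ l = j

/-- The ordered pairs of indices. -/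
def Q (n : ℕ) : Finset (Fin n × Fin n) := Finset.univ.filter fun q => q.1 < q.2

lemma mem_Q {n : ℕ} {q : Fin n × Fin n} : q ∈ Q n ↔ q.1 < q.2 := by simp [Q]

lemma card_Q (n : ℕ) : 2 * (Q n).card = n * (n - 1) := by
  have h1 : (Q n).card = ∑ j : Fin n, (j : ℕ) := by
    have h2 : Q n = Finset.univ.biUnion fun j : Fin n => (Finset.Iio j).image fun i => (i, j) := by
      ext ⟨i, j⟩
      simp [Q]
    rw [h2, Finset.card_biUnion]
    · refine Finset.sum_congr rfl fun j _ => ?_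
      rw [Finset.card_image_of_injective _ (fun x y h => (Prod.ext_iff.1 h).1), Fin.card_Iio]
    · intro j _ j' _ hjj
      rw [Function.onFun, Finset.disjoint_left]
      rintro ⟨x, y⟩ hx hy
      rw [Finset.mem_image] at hx hy
      obtain ⟨_, _, h3⟩ := hx
      obtain ⟨_, _, h4⟩ := hy
      apply hjj
      rw [Prod.ext_iff] at h3 h4
      exact h3.2.trans h4.2.symm
  rw [h1, Fin.sum_univ_eq_sum_range (fun i => i) n, mul_comm]
  exact Finset.sum_range_id_mul_two n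

/-- A number is at most its radical times a square divisor. -/
lemma exists_square (m : ℕ) (hm : m ≠ 0) : ∃ e : ℕ, e ^ 2 ∣ m ∧ m ≤ (∏ p ∈ m.primeFactors, p) * e ^ 2 := by
  refine ⟨∏ p ∈ m.primeFactors, p ^ (m.factorization p / 2), ?_, ?_⟩
  · conv_rhs => rw [← Nat.prod_factorization_pow_eq_self hm]
    rw [Nat.prod_factorization_eq_prod_primeFactors, ← Finset.prod_pow]
    refine Finset.prod_dvd_prod_of_dvd _ _ fun p _ => ?_
    rw [← pow_mul]
    exact pow_dvd_pow _ (by omega)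
  · conv_lhs => rw [← Nat.prod_factorization_pow_eq_self hm]
    rw [Nat.prod_factorization_eq_prod_primeFactors, ← Finset.prod_pow, ← Finset.prod_mul_distrib]
    refine Finset.prod_le_prod' fun p hp => ?_
    have hp1 : 1 ≤ p := (Nat.prime_of_mem_primeFactors hp).one_lt.le
    rw [← pow_mul, ← pow_succ']
    exact Nat.pow_le_pow_right hp1 (by omega)

/-- The differences. -/
def diff {n : ℕ} (a : Fin n → ℤ) (q : Fin n × Fin n) : ℕ := (a q.1 - a q.2).natAbs

lemma dvd_diff {n : ℕ} {a : Fin n → ℤ} {q : Fin n × Fin n} {d : ℕ} :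
    d ∣ diff a q ↔ (d : ℤ) ∣ a q.1 - a q.2 := by
  rw [diff, Int.natCast_dvd]

open Classical in
/-- The weak primes which divide the difference `q`. -/
noncomputable def PW {n : ℕ} (a : Fin n → ℤ) (q : Fin n × Fin n) : Finset ℕ :=
  (diff a q).primeFactors.filter (Weak a)

lemma disjoint_PW {n : ℕ} {a : Fin n → ℤ} {q q' : Fin n × Fin n} (hq : q ∈ Q n) (hq' : q' ∈ Q n)
    (h : q ≠ q') : Disjoint (PW a q) (PW a q') := by
  classical
  rw [Finset.disjoint_left]
  intro p hp hp'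
  rw [PW, Finset.mem_filter] at hp hp'
  obtain ⟨h1, -, -, i, j, -, -, h2⟩ := hp
  have h3 := h2 q.1 q.2 (mem_Q.1 hq) (dvd_diff.1 (Nat.dvd_of_mem_primeFactors h1))
  have h4 := h2 q'.1 q'.2 (mem_Q.1 hq') (dvd_diff.1 (Nat.dvd_of_mem_primeFactors hp'.1))
  exact h (Prod.ext (h3.1.trans h4.1.symm) (h3.2.trans h4.2.symm))

/-- The product of all weak primes divides each number which they divide. -/
lemma prod_dvd {n : ℕ} {a : Fin n → ℤ} {N : ℕ} (hN : ∀ p, Weak a p → p ∣ N) :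
    ∏ q ∈ Q n, ∏ p ∈ PW a q, p ∣ N := by
  classical
  have h1 : ∏ q ∈ Q n, ∏ p ∈ PW a q, p = ∏ p ∈ (Q n).biUnion (PW a), p := by
    rw [Finset.prod_biUnion]
    intro q hq q' hq' hne
    exact disjoint_PW hq hq' hne
  rw [h1]
  refine Finset.prod_primes_dvd N (fun p hp => ?_) fun p hp => ?_
  · obtain ⟨q, -, hp⟩ := Finset.mem_biUnion.1 hp
    exact (Nat.prime_of_mem_primeFactors (Finset.mem_filter.1 hp).1).prime
  · obtain ⟨q, -, hp⟩ := Finset.mem_biUnion.1 hp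
    exact hN p (Finset.mem_filter.1 hp).2

/-- Each prime divisor of a difference is even, weak, or divides a second difference. -/
lemma rad_dvd {n : ℕ} (a : Fin n → ℤ) {q : Fin n × Fin n} (hq : q ∈ Q n) :
    (∏ p ∈ (diff a q).primeFactors, p) ∣
      2 * (∏ p ∈ PW a q, p) * ∏ q' ∈ (Q n).erase q, Nat.gcd (diff a q) (diff a q') := by
  classical
  refine Finset.prod_primes_dvd _ (fun p hp => (Nat.prime_of_mem_primeFactors hp).prime) fun p hp => ?_
  have hpp := Nat.prime_of_mem_primeFactors hp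
  have hpd := Nat.dvd_of_mem_primeFactors hp
  by_cases h2 : p = 2
  · subst h2
    exact Dvd.dvd.mul_right (Dvd.intro _ rfl) _
  by_cases hw : Weak a p
  · have h3 : p ∈ PW a q := by
      rw [PW, Finset.mem_filter]
      exact ⟨hp, hw⟩
    exact Dvd.dvd.mul_right (Dvd.dvd.mul_left (Finset.dvd_prod_of_mem _ h3) _) _
  · have h3 : ∃ q' ∈ (Q n).erase q, p ∣ diff a q' := by
      by_contra hcon
      push Not at hcon
      apply hw
      refine ⟨hpp, h2, q.1, q.2, mem_Q.1 hq, dvd_diff.1 hpd, fun k l hkl hd => ?_⟩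
      by_contra hne
      refine hcon (k, l) ?_ (dvd_diff.2 hd)
      rw [Finset.mem_erase]
      refine ⟨fun h => hne ?_, mem_Q.2 hkl⟩
      rw [← h]
      exact ⟨rfl, rfl⟩
    obtain ⟨q', hq', hd⟩ := h3
    refine Dvd.dvd.mul_left ?_ _
    exact (Nat.dvd_gcd hpd hd).trans (Finset.dvd_prod_of_mem _ hq')

/-- **The conductor of a good tuple is large.** -/
theorem conductor_large {n B : ℕ} {δ : ℝ} (h0 : 0 < δ) (hB : 1 ≤ B) {a : Fin n → ℤ}
    (hinj : Function.Injective a) (hg : Good n B δ a) {N : ℕ} (hN0 : 0 < N)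
    (hN : ∀ p, Weak a p → p ∣ N) :
    ((B : ℝ) ^ (1 - ((Q n).card + 3) * δ) / 2) ^ (Q n).card ≤ N := by
  classical
  have hB' : (1 : ℝ) ≤ B := by exact_mod_cast hB
  have hB0 : (0 : ℝ) < B := by linarith
  have hG : (1 : ℝ) ≤ (B : ℝ) ^ δ := Real.one_le_rpow hB' h0.le
  have key : ∀ q ∈ Q n, (B : ℝ) ^ (1 - ((Q n).card + 3) * δ) / 2 ≤ ((∏ p ∈ PW a q, p : ℕ) : ℝ) := by
    intro q hq
    have hne : q.1 ≠ q.2 := (mem_Q.1 hq).ne
    have hd0 : diff a q ≠ 0 := by
      rw [diff, Int.natAbs_ne_zero, sub_ne_zero]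
      exact fun h => hne (hinj h)
    obtain ⟨e, he, hm⟩ := exists_square (diff a q) hd0
    have he' : (e : ℝ) ≤ (B : ℝ) ^ δ := by
      refine hg.square q.1 q.2 hne e ?_
      have := dvd_diff.1 he
      exact_mod_cast this
    have hgcd : ((∏ q' ∈ (Q n).erase q, Nat.gcd (diff a q) (diff a q') : ℕ) : ℝ) ≤
        ((B : ℝ) ^ δ) ^ (Q n).card := by
      push_cast
      calc ∏ q' ∈ (Q n).erase q, ((Nat.gcd (diff a q) (diff a q') : ℕ) : ℝ)
          ≤ ∏ _q' ∈ (Q n).erase q, (B : ℝ) ^ δ := by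
            refine Finset.prod_le_prod (fun _ _ => by positivity) fun q' hq' => ?_
            have hq'1 := Finset.mem_erase.1 hq'
            refine hg.coprime q.1 q.2 q'.1 q'.2 (mem_Q.1 hq) (mem_Q.1 hq'1.2) ?_ _
              (dvd_diff.1 (Nat.gcd_dvd_left _ _)) (dvd_diff.1 (Nat.gcd_dvd_right _ _))
            exact fun h => hq'1.1 h.symm
        _ = ((B : ℝ) ^ δ) ^ ((Q n).erase q).card := by rw [Finset.prod_const]
        _ ≤ ((B : ℝ) ^ δ) ^ (Q n).card :=
            pow_le_pow_right₀ hG (Finset.card_le_card (Finset.erase_subset _ _))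
    have hW0 : 0 < ∏ p ∈ PW a q, p := Finset.prod_pos fun p hp => by
      rw [PW, Finset.mem_filter] at hp
      exact (Nat.prime_of_mem_primeFactors hp.1).pos
    have hg0 : 0 < ∏ q' ∈ (Q n).erase q, Nat.gcd (diff a q) (diff a q') :=
      Finset.prod_pos fun q' _ => Nat.gcd_pos_of_pos_left _ (Nat.pos_of_ne_zero hd0)
    have hrad := Nat.le_of_dvd (by positivity) (rad_dvd a hq)
    have hlarge : (B : ℝ) ^ (1 - δ) ≤ (diff a q : ℝ) := by
      have h1 := hg.large q.1 q.2 hne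
      have h2 : ((diff a q : ℕ) : ℝ) = |((a q.1 - a q.2 : ℤ) : ℝ)| := by
        rw [diff, Nat.cast_natAbs, Int.cast_abs]
      rw [h2]
      exact h1
    have h3 : (diff a q : ℝ) ≤ (2 * ((∏ p ∈ PW a q, p : ℕ) : ℝ) * ((B : ℝ) ^ δ) ^ (Q n).card) *
        ((B : ℝ) ^ δ) ^ 2 := by
      have h4 : (diff a q : ℝ) ≤ ((∏ p ∈ (diff a q).primeFactors, p : ℕ) : ℝ) * (e : ℝ) ^ 2 := by
        exact_mod_cast hm
      have h5 : ((∏ p ∈ (diff a q).primeFactors, p : ℕ) : ℝ) ≤ 2 * ((∏ p ∈ PW a q, p : ℕ) : ℝ) *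
          ((∏ q' ∈ (Q n).erase q, Nat.gcd (diff a q) (diff a q') : ℕ) : ℝ) := by
        exact_mod_cast hrad
      have h6 : (e : ℝ) ^ 2 ≤ ((B : ℝ) ^ δ) ^ 2 := pow_le_pow_left₀ (by positivity) he' 2
      refine h4.trans (mul_le_mul (h5.trans ?_) h6 (by positivity) (by positivity))
      exact mul_le_mul_of_nonneg_left hgcd (by positivity)
    have h7 : ((B : ℝ) ^ δ) ^ (Q n).card * ((B : ℝ) ^ δ) ^ 2 = (B : ℝ) ^ (((Q n).card + 2) * δ) := by
      rw [← pow_add, ← Real.rpow_natCast, ← Real.rpow_mul hB0.le]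
      congr 1
      push_cast
      ring
    have h8 : (B : ℝ) ^ (1 - δ) ≤ 2 * ((∏ p ∈ PW a q, p : ℕ) : ℝ) * (B : ℝ) ^ (((Q n).card + 2) * δ) := by
      rw [← h7]
      calc (B : ℝ) ^ (1 - δ) ≤ _ := hlarge.trans h3
        _ = _ := by ring
    have h9 : (B : ℝ) ^ (1 - ((Q n).card + 3) * δ) * (B : ℝ) ^ (((Q n).card + 2) * δ) =
        (B : ℝ) ^ (1 - δ) := by
      rw [← Real.rpow_add hB0]
      congr 1
      ring
    rw [← h9] at h8
    have h10 : (0 : ℝ) < (B : ℝ) ^ (((Q n).card + 2) * δ) := Real.rpow_pos_of_pos hB0 _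
    have h11 := le_of_mul_le_mul_right h8 h10
    linarith
  calc ((B : ℝ) ^ (1 - ((Q n).card + 3) * δ) / 2) ^ (Q n).card
      = ∏ _q ∈ Q n, ((B : ℝ) ^ (1 - ((Q n).card + 3) * δ) / 2) := by rw [Finset.prod_const]
    _ ≤ ∏ q ∈ Q n, ((∏ p ∈ PW a q, p : ℕ) : ℝ) :=
        Finset.prod_le_prod (fun _ _ => by positivity) key
    _ = ((∏ q ∈ Q n, ∏ p ∈ PW a q, p : ℕ) : ℝ) := by push_cast; rfl
    _ ≤ N := by exact_mod_cast Nat.le_of_dvd hN0 (prod_dvd hN)

end Pool.Agent.Helper53.FJ
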