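import Pool.Agent.Helper53.FJ.Count

/-!
# Almost all tuples are good
-/

set_option autoImplicit false

open Finset

namespace Pool.Agent.Helper53.FJ

/-- The tuples whose differences are large, nearly squarefree and nearly coprime. -/
structure Good (n B : ℕ) (δ : ℝ) (a : Fin n → ℤ) : Prop where
  large : ∀ i j, i ≠ j → (B : ℝ) ^ (1 - δ) ≤ |((a i - a j : ℤ) : ℝ)|
  square : ∀ i j, i ≠ j → ∀ e : ℕ, ((e : ℤ) ^ 2 ∣ a i - a j) → (e : ℝ) ≤ (B : ℝ) ^ δ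
  coprime : ∀ i j k l, i < j → k < l → (i, j) ≠ (k, l) → ∀ d : ℕ, (d : ℤ) ∣ a i - a j →
    (d : ℤ) ∣ a k - a l → (d : ℝ) ≤ (B : ℝ) ^ δ

/-- The integers with large square divisors. -/
noncomputable def sq (B k : ℕ) : Finset ℤ :=
  (Finset.Ioc k (2 * B)).biUnion fun e => mult B (e ^ 2)

lemma card_sq (B k : ℕ) (hk : 1 ≤ k) : ((sq B k).card : ℝ) ≤ 4 * B / k := by
  calc ((sq B k).card : ℝ) ≤ ∑ e ∈ Finset.Ioc k (2 * B), ((mult B (e ^ 2)).card : ℝ) := by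
        exact_mod_cast Finset.card_biUnion_le
    _ ≤ ∑ e ∈ Finset.Ioc k (2 * B), 4 * (B : ℝ) * (1 / (e : ℝ) ^ 2) := by
        refine Finset.sum_le_sum fun e he => ?_
        have he' : 1 ≤ e := by
          rw [Finset.mem_Ioc] at he
          omega
        have h1 := card_mult B (e ^ 2) (Nat.one_le_pow _ _ he')
        push_cast at h1
        calc ((mult B (e ^ 2)).card : ℝ) ≤ 4 * B / (e : ℝ) ^ 2 := h1
          _ = 4 * (B : ℝ) * (1 / (e : ℝ) ^ 2) := by ring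
    _ = 4 * (B : ℝ) * ∑ e ∈ Finset.Ioc k (2 * B), (1 / (e : ℝ) ^ 2) := by rw [Finset.mul_sum]
    _ ≤ 4 * (B : ℝ) * (1 / k) := by
        refine mul_le_mul_of_nonneg_left (tail_sq k (2 * B) hk) (by positivity)
    _ = 4 * B / k := by ring

/-- The tuples with a large common divisor of two differences. -/
noncomputable def cop (n B k : ℕ) (u u' v v' : Fin n) : Finset (Fin n → ℤ) :=
  (Finset.Ioc k (2 * B)).biUnion fun d =>
    (box n B).filter fun a => a u - a u' ∈ mult B d ∧ a v - a v' ∈ mult B d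

lemma card_cop {n B k : ℕ} (hk : 1 ≤ k) {u u' v v' : Fin n} (huv : u ≠ v) (h1 : u' ≠ u) (h2 : u' ≠ v)
    (h3 : v' ≠ u) (h4 : v' ≠ v) :
    ((cop n B k u u' v v').card : ℝ) ≤ (2 * B + 1) ^ (n - 2) * (16 * B ^ 2 / k) := by
  calc ((cop n B k u u' v v').card : ℝ) ≤ ∑ d ∈ Finset.Ioc k (2 * B),
        (((box n B).filter fun a => a u - a u' ∈ mult B d ∧ a v - a v' ∈ mult B d).card : ℝ) := by
        exact_mod_cast Finset.card_biUnion_le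
    _ ≤ ∑ d ∈ Finset.Ioc k (2 * B), (2 * (B : ℝ) + 1) ^ (n - 2) * (16 * B ^ 2) *
          (1 / (d : ℝ) ^ 2) := by
        refine Finset.sum_le_sum fun d hd => ?_
        have hd' : 1 ≤ d := by
          rw [Finset.mem_Ioc] at hd
          omega
        have h5 := count_two (B := B) huv h1 h2 h3 h4 (mult B d) (mult B d)
        have h6 : (((box n B).filter fun a => a u - a u' ∈ mult B d ∧ a v - a v' ∈ mult B d).card : ℝ)
            ≤ (2 * (B : ℝ) + 1) ^ (n - 2) * (((mult B d).card : ℝ) * ((mult B d).card : ℝ)) := by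
          exact_mod_cast h5
        have h7 := card_mult B d hd'
        have h8 : ((mult B d).card : ℝ) * ((mult B d).card : ℝ) ≤ (4 * B / d) * (4 * B / d) :=
          mul_le_mul h7 h7 (by positivity) (by positivity)
        refine h6.trans ?_
        calc (2 * (B : ℝ) + 1) ^ (n - 2) * (((mult B d).card : ℝ) * ((mult B d).card : ℝ))
            ≤ (2 * (B : ℝ) + 1) ^ (n - 2) * ((4 * B / d) * (4 * B / d)) :=
              mul_le_mul_of_nonneg_left h8 (by positivity)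
          _ = (2 * (B : ℝ) + 1) ^ (n - 2) * (16 * B ^ 2) * (1 / (d : ℝ) ^ 2) := by ring
    _ = (2 * (B : ℝ) + 1) ^ (n - 2) * (16 * B ^ 2) *
          ∑ d ∈ Finset.Ioc k (2 * B), (1 / (d : ℝ) ^ 2) := by rw [Finset.mul_sum]
    _ ≤ (2 * (B : ℝ) + 1) ^ (n - 2) * (16 * B ^ 2) * (1 / k) :=
        mul_le_mul_of_nonneg_left (tail_sq k (2 * B) hk) (by positivity)
    _ = (2 * B + 1) ^ (n - 2) * (16 * B ^ 2 / k) := by ring

lemma floor_bound {G : ℝ} (hG : 1 ≤ G) : 1 ≤ ⌊G⌋₊ ∧ (1 : ℝ) / (⌊G⌋₊ : ℝ) ≤ 2 / G := by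
  have h1 : 1 ≤ ⌊G⌋₊ := Nat.le_floor (by exact_mod_cast hG)
  refine ⟨h1, ?_⟩
  have h2 : G < ⌊G⌋₊ + 1 := Nat.lt_floor_add_one G
  have h3 : (1 : ℝ) ≤ ⌊G⌋₊ := by exact_mod_cast h1
  rw [div_le_div_iff₀ (by linarith) (by linarith)]
  linarith

lemma pow_bound {n m B : ℕ} (hm : m ≤ n) (hB : 1 ≤ B) :
    (2 * (B : ℝ) + 1) ^ (n - m) ≤ 3 ^ n * (B : ℝ) ^ ((n : ℝ) - m) := by
  have hB' : (1 : ℝ) ≤ B := by exact_mod_cast hB
  have h1 : (2 * (B : ℝ) + 1) ^ (n - m) ≤ (3 * (B : ℝ)) ^ (n - m) :=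
    pow_le_pow_left₀ (by positivity) (by linarith) _
  have h2 : (B : ℝ) ^ ((n : ℝ) - m) = (B : ℝ) ^ (n - m) := by
    rw [← Nat.cast_sub hm, Real.rpow_natCast]
  have h3 : (3 : ℝ) ^ (n - m) ≤ 3 ^ n := pow_le_pow_right₀ (by norm_num) (Nat.sub_le _ _)
  rw [h2]
  calc (2 * (B : ℝ) + 1) ^ (n - m) ≤ (3 * (B : ℝ)) ^ (n - m) := h1
    _ = 3 ^ (n - m) * (B : ℝ) ^ (n - m) := mul_pow _ _ _
    _ ≤ 3 ^ n * (B : ℝ) ^ (n - m) := mul_le_mul_of_nonneg_right h3 (by positivity)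

lemma one_small {n B : ℕ} {δ : ℝ} (h1 : δ < 1) (hB : 1 ≤ B) {u u' : Fin n} (h : u ≠ u') :
    (((box n B).filter fun a => a u - a u' ∈ Finset.Icc (-(⌊(B : ℝ) ^ (1 - δ)⌋₊ : ℤ))
      ⌊(B : ℝ) ^ (1 - δ)⌋₊).card : ℝ) ≤ 3 ^ (n + 1) * (B : ℝ) ^ ((n : ℝ) - δ) := by
  have hB' : (1 : ℝ) ≤ B := by exact_mod_cast hB
  have hn : 1 ≤ n := by
    have := u.2
    omega
  have h2 := count_one (B := B) h (Finset.Icc (-(⌊(B : ℝ) ^ (1 - δ)⌋₊ : ℤ)) ⌊(B : ℝ) ^ (1 - δ)⌋₊)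
  rw [card_Icc_sym] at h2
  have hM : (1 : ℝ) ≤ (B : ℝ) ^ (1 - δ) := Real.one_le_rpow hB' (by linarith)
  have h3 : ((⌊(B : ℝ) ^ (1 - δ)⌋₊ : ℕ) : ℝ) ≤ (B : ℝ) ^ (1 - δ) :=
    Nat.floor_le (by positivity)
  have h4 := pow_bound hn hB
  calc _ ≤ (((2 * B + 1) ^ (n - 1) * (2 * ⌊(B : ℝ) ^ (1 - δ)⌋₊ + 1) : ℕ) : ℝ) := by
        exact_mod_cast h2
    _ = (2 * (B : ℝ) + 1) ^ (n - 1) * (2 * (⌊(B : ℝ) ^ (1 - δ)⌋₊ : ℝ) + 1) := by push_cast; ring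
    _ ≤ (3 ^ n * (B : ℝ) ^ ((n : ℝ) - (1 : ℕ))) * (3 * (B : ℝ) ^ (1 - δ)) :=
        mul_le_mul h4 (by linarith) (by positivity) (by positivity)
    _ = 3 ^ (n + 1) * ((B : ℝ) ^ ((n : ℝ) - (1 : ℕ)) * (B : ℝ) ^ (1 - δ)) := by ring
    _ = 3 ^ (n + 1) * (B : ℝ) ^ ((n : ℝ) - δ) := by
        rw [← Real.rpow_add (by linarith)]
        congr 2
        push_cast
        ring

lemma one_square {n B : ℕ} {δ : ℝ} (h0 : 0 < δ) (hB : 1 ≤ B) {u u' : Fin n} (h : u ≠ u') :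
    (((box n B).filter fun a => a u - a u' ∈ sq B ⌊(B : ℝ) ^ δ⌋₊).card : ℝ) ≤
      8 * 3 ^ n * (B : ℝ) ^ ((n : ℝ) - δ) := by
  have hB' : (1 : ℝ) ≤ B := by exact_mod_cast hB
  have hn : 1 ≤ n := by
    have := u.2
    omega
  have hG : (1 : ℝ) ≤ (B : ℝ) ^ δ := Real.one_le_rpow hB' h0.le
  obtain ⟨hk, hk'⟩ := floor_bound hG
  have h2 := count_one (B := B) h (sq B ⌊(B : ℝ) ^ δ⌋₊)
  have h3 := card_sq B _ hk
  have h4 := pow_bound hn hB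
  have h5 : 4 * (B : ℝ) / (⌊(B : ℝ) ^ δ⌋₊ : ℝ) ≤ 8 * (B : ℝ) ^ (1 - δ) := by
    calc 4 * (B : ℝ) / (⌊(B : ℝ) ^ δ⌋₊ : ℝ) = 4 * (B : ℝ) * (1 / (⌊(B : ℝ) ^ δ⌋₊ : ℝ)) := by ring
      _ ≤ 4 * (B : ℝ) * (2 / (B : ℝ) ^ δ) := mul_le_mul_of_nonneg_left hk' (by positivity)
      _ = 8 * ((B : ℝ) / (B : ℝ) ^ δ) := by ring
      _ = 8 * (B : ℝ) ^ (1 - δ) := by
        rw [Real.rpow_sub (by linarith), Real.rpow_one]
  calc _ ≤ (((2 * B + 1) ^ (n - 1) * (sq B ⌊(B : ℝ) ^ δ⌋₊).card : ℕ) : ℝ) := by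
        exact_mod_cast h2
    _ = (2 * (B : ℝ) + 1) ^ (n - 1) * ((sq B ⌊(B : ℝ) ^ δ⌋₊).card : ℝ) := by push_cast; ring
    _ ≤ (3 ^ n * (B : ℝ) ^ ((n : ℝ) - (1 : ℕ))) * (8 * (B : ℝ) ^ (1 - δ)) :=
        mul_le_mul h4 (h3.trans h5) (by positivity) (by positivity)
    _ = 8 * 3 ^ n * ((B : ℝ) ^ ((n : ℝ) - (1 : ℕ)) * (B : ℝ) ^ (1 - δ)) := by ring
    _ = 8 * 3 ^ n * (B : ℝ) ^ ((n : ℝ) - δ) := by
        rw [← Real.rpow_add (by linarith)]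
        congr 2
        push_cast
        ring

lemma one_cop {n B : ℕ} {δ : ℝ} (h0 : 0 < δ) (hB : 1 ≤ B) {u u' v v' : Fin n} (huv : u ≠ v)
    (h1 : u' ≠ u) (h2 : u' ≠ v) (h3 : v' ≠ u) (h4 : v' ≠ v) :
    ((cop n B ⌊(B : ℝ) ^ δ⌋₊ u u' v v').card : ℝ) ≤ 32 * 3 ^ n * (B : ℝ) ^ ((n : ℝ) - δ) := by
  have hB' : (1 : ℝ) ≤ B := by exact_mod_cast hB
  have hn : 2 ≤ n := by
    have h5 := u.2
    have h6 := v.2
    have h7 : (u : ℕ) ≠ v := fun h => huv (Fin.ext h)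
    omega
  have hG : (1 : ℝ) ≤ (B : ℝ) ^ δ := Real.one_le_rpow hB' h0.le
  obtain ⟨hk, hk'⟩ := floor_bound hG
  have h5 := card_cop (B := B) hk huv h1 h2 h3 h4
  have h6 := pow_bound hn hB
  have h7 : 16 * (B : ℝ) ^ 2 / (⌊(B : ℝ) ^ δ⌋₊ : ℝ) ≤ 32 * (B : ℝ) ^ (2 - δ) := by
    calc 16 * (B : ℝ) ^ 2 / (⌊(B : ℝ) ^ δ⌋₊ : ℝ) =
          16 * (B : ℝ) ^ 2 * (1 / (⌊(B : ℝ) ^ δ⌋₊ : ℝ)) := by ring
      _ ≤ 16 * (B : ℝ) ^ 2 * (2 / (B : ℝ) ^ δ) := mul_le_mul_of_nonneg_left hk' (by positivity)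
      _ = 32 * ((B : ℝ) ^ 2 / (B : ℝ) ^ δ) := by ring
      _ = 32 * (B : ℝ) ^ (2 - δ) := by
        rw [Real.rpow_sub (by linarith)]
        norm_num
  calc _ ≤ (2 * (B : ℝ) + 1) ^ (n - 2) * (16 * (B : ℝ) ^ 2 / (⌊(B : ℝ) ^ δ⌋₊ : ℝ)) := h5
    _ ≤ (3 ^ n * (B : ℝ) ^ ((n : ℝ) - (2 : ℕ))) * (32 * (B : ℝ) ^ (2 - δ)) :=
        mul_le_mul h6 h7 (by positivity) (by positivity)
    _ = 32 * 3 ^ n * ((B : ℝ) ^ ((n : ℝ) - (2 : ℕ)) * (B : ℝ) ^ (2 - δ)) := by ring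
    _ = 32 * 3 ^ n * (B : ℝ) ^ ((n : ℝ) - δ) := by
        rw [← Real.rpow_add (by linarith)]
        congr 2
        push_cast
        ring

lemma card_biUnion_real {ι α : Type*} [DecidableEq α] (s : Finset ι) (t : ι → Finset α) (K : ℝ)
    (h : ∀ i ∈ s, ((t i).card : ℝ) ≤ K) : ((s.biUnion t).card : ℝ) ≤ s.card * K := by
  calc ((s.biUnion t).card : ℝ) ≤ ∑ i ∈ s, ((t i).card : ℝ) := by
        exact_mod_cast Finset.card_biUnion_le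
    _ ≤ ∑ _i ∈ s, K := Finset.sum_le_sum h
    _ = s.card * K := by rw [Finset.sum_const, nsmul_eq_mul]

/-- The index sets. -/
def pairs (n : ℕ) : Finset (Fin n × Fin n) := Finset.univ.filter fun q => q.1 ≠ q.2

def quads (n : ℕ) : Finset ((Fin n × Fin n) × (Fin n × Fin n)) :=
  Finset.univ.filter fun q => q.1.1 ≠ q.2.1 ∧ q.1.2 ≠ q.1.1 ∧ q.1.2 ≠ q.2.1 ∧ q.2.2 ≠ q.1.1 ∧
    q.2.2 ≠ q.2.1

/-- The divisibility of a difference does not depend on the order. -/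
lemma mem_mult_of_dvd {n B : ℕ} {a : Fin n → ℤ} (ha : ∀ i, |a i| ≤ B) (hinj : Function.Injective a)
    {i j : Fin n} (hij : i ≠ j) {d : ℕ} (hd : (d : ℤ) ∣ a i - a j) : a i - a j ∈ mult B d := by
  rw [mult, Finset.mem_filter, Finset.mem_Icc]
  have h1 := abs_le.1 (ha i)
  have h2 := abs_le.1 (ha j)
  refine ⟨⟨by linarith [h1.1, h2.2], by linarith [h1.2, h2.1]⟩, ?_, hd⟩
  intro h3
  exact hij (hinj (by linarith))

lemma le_of_mem_mult {B d : ℕ} {z : ℤ} (h : z ∈ mult B d) : d ≤ 2 * B := by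
  rw [mult, Finset.mem_filter, Finset.mem_Icc] at h
  obtain ⟨⟨h1, h2⟩, h3, h4⟩ := h
  have h5 : (d : ℤ) ≤ |z| := Int.le_of_dvd (abs_pos.2 h3) ((dvd_abs _ _).2 h4)
  have h6 : |z| ≤ 2 * B := abs_le.2 ⟨h1, h2⟩
  omega

/-- **Almost all tuples are good.** -/
theorem count_bad (n : ℕ) {δ : ℝ} (h0 : 0 < δ) (h1 : δ < 1) : ∃ C : ℝ, 0 ≤ C ∧ ∀ B : ℕ, 1 ≤ B →
    ∀ s : Finset (Fin n → ℤ), (∀ a ∈ s, (∀ i, |a i| ≤ B) ∧ Function.Injective a ∧ ¬ Good n B δ a) →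
      (s.card : ℝ) ≤ C * (B : ℝ) ^ ((n : ℝ) - δ) := by
  classical
  refine ⟨(pairs n).card * 3 ^ (n + 1) + (pairs n).card * (8 * 3 ^ n) + (quads n).card * (32 * 3 ^ n),
    by positivity, fun B hB s hs => ?_⟩
  have hB' : (1 : ℝ) ≤ B := by exact_mod_cast hB
  let S1 := (pairs n).biUnion fun q => (box n B).filter fun a => a q.1 - a q.2 ∈
    Finset.Icc (-(⌊(B : ℝ) ^ (1 - δ)⌋₊ : ℤ)) ⌊(B : ℝ) ^ (1 - δ)⌋₊
  let S2 := (pairs n).biUnion fun q => (box n B).filter fun a => a q.1 - a q.2 ∈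
    sq B ⌊(B : ℝ) ^ δ⌋₊
  let S3 := (quads n).biUnion fun q => cop n B ⌊(B : ℝ) ^ δ⌋₊ q.1.1 q.1.2 q.2.1 q.2.2
  have hsub : s ⊆ S1 ∪ S2 ∪ S3 := by
    intro a ha
    obtain ⟨hbox, hinj, hbad⟩ := hs a ha
    by_contra hcon
    rw [Finset.mem_union, Finset.mem_union] at hcon
    push Not at hcon
    obtain ⟨⟨hc1, hc2⟩, hc3⟩ := hcon
    apply hbad
    refine ⟨fun i j hij => ?_, fun i j hij e he => ?_, fun i j k l hij hkl hne d hd hd' => ?_⟩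
    · by_contra hlt
      push Not at hlt
      apply hc1
      rw [Finset.mem_biUnion]
      refine ⟨(i, j), Finset.mem_filter.2 ⟨Finset.mem_univ _, hij⟩, ?_⟩
      rw [Finset.mem_filter]
      refine ⟨mem_box.2 hbox, ?_⟩
      rw [Finset.mem_Icc]
      have h2 : |a i - a j| ≤ (⌊(B : ℝ) ^ (1 - δ)⌋₊ : ℤ) := by
        have h3 : (|a i - a j|).toNat ≤ ⌊(B : ℝ) ^ (1 - δ)⌋₊ := by
          apply Nat.le_floor
          have h4 : (((|a i - a j|).toNat : ℤ) : ℝ) = |((a i - a j : ℤ) : ℝ)| := by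
            rw [Int.toNat_of_nonneg (abs_nonneg _)]
            push_cast
            ring
          have h5 : (((|a i - a j|).toNat : ℕ) : ℝ) = |((a i - a j : ℤ) : ℝ)| := by
            rw [← h4]
            norm_cast
          rw [h5]
          exact hlt.le
        omega
      exact abs_le.1 h2
    · by_contra hlt
      push Not at hlt
      apply hc2
      rw [Finset.mem_biUnion]
      refine ⟨(i, j), Finset.mem_filter.2 ⟨Finset.mem_univ _, hij⟩, ?_⟩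
      rw [Finset.mem_filter]
      refine ⟨mem_box.2 hbox, ?_⟩
      have h2 : a i - a j ∈ mult B (e ^ 2) := mem_mult_of_dvd hbox hinj hij (by push_cast; exact he)
      have h3 := le_of_mem_mult h2
      rw [sq, Finset.mem_biUnion]
      refine ⟨e, ?_, h2⟩
      rw [Finset.mem_Ioc]
      refine ⟨(Nat.floor_lt (by positivity)).2 hlt, ?_⟩
      nlinarith [Nat.zero_le e, h3]
    · by_contra hlt
      push Not at hlt
      apply hc3
      rw [Finset.mem_biUnion]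
      have hfl : ⌊(B : ℝ) ^ δ⌋₊ < d := (Nat.floor_lt (by positivity)).2 hlt
      have key : ∀ u u' v v' : Fin n, u ≠ v → u' ≠ u → u' ≠ v → v' ≠ u → v' ≠ v →
          (d : ℤ) ∣ a u - a u' → (d : ℤ) ∣ a v - a v' →
          ∃ q ∈ quads n, a ∈ cop n B ⌊(B : ℝ) ^ δ⌋₊ q.1.1 q.1.2 q.2.1 q.2.2 := by
        intro u u' v v' e1 e2 e3 e4 e5 e6 e7
        refine ⟨((u, u'), (v, v')), Finset.mem_filter.2 ⟨Finset.mem_univ _, e1, e2, e3, e4, e5⟩, ?_⟩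
        have e8 := mem_mult_of_dvd hbox hinj e2.symm e6
        have e9 := mem_mult_of_dvd hbox hinj e5.symm e7
        rw [cop, Finset.mem_biUnion]
        refine ⟨d, Finset.mem_Ioc.2 ⟨hfl, le_of_mem_mult e8⟩, ?_⟩
        rw [Finset.mem_filter]
        exact ⟨mem_box.2 hbox, e8, e9⟩
      have hd1 : (d : ℤ) ∣ a j - a i := (dvd_sub_comm).1 hd
      have hd1' : (d : ℤ) ∣ a l - a k := (dvd_sub_comm).1 hd'
      have hij' : (i : ℕ) < j := hij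
      have hkl' : (k : ℕ) < l := hkl
      have hne' : ¬ ((i : ℕ) = k ∧ (j : ℕ) = l) := by
        rintro ⟨e1, e2⟩
        exact hne (Prod.ext (Fin.ext e1) (Fin.ext e2))
      by_cases c1 : (i : ℕ) ≠ k ∧ (i : ℕ) ≠ l
      · by_cases c2 : (k : ℕ) ≠ i ∧ (k : ℕ) ≠ j
        · refine key i j k l ?_ ?_ ?_ ?_ ?_ hd hd' <;>
            (intro hh; have := congrArg Fin.val hh; omega)
        · refine key i j l k ?_ ?_ ?_ ?_ ?_ hd hd1' <;>
            (intro hh; have := congrArg Fin.val hh; omega)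
      · by_cases c2 : (k : ℕ) ≠ i ∧ (k : ℕ) ≠ j
        · refine key j i k l ?_ ?_ ?_ ?_ ?_ hd1 hd' <;>
            (intro hh; have := congrArg Fin.val hh; omega)
        · refine key j i l k ?_ ?_ ?_ ?_ ?_ hd1 hd1' <;>
            (intro hh; have := congrArg Fin.val hh; omega)
  have e1 : (S1.card : ℝ) ≤ (pairs n).card * (3 ^ (n + 1) * (B : ℝ) ^ ((n : ℝ) - δ)) :=
    card_biUnion_real _ _ _ fun q hq => one_small h1 hB (Finset.mem_filter.1 hq).2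
  have e2 : (S2.card : ℝ) ≤ (pairs n).card * (8 * 3 ^ n * (B : ℝ) ^ ((n : ℝ) - δ)) :=
    card_biUnion_real _ _ _ fun q hq => one_square h0 hB (Finset.mem_filter.1 hq).2
  have e3 : (S3.card : ℝ) ≤ (quads n).card * (32 * 3 ^ n * (B : ℝ) ^ ((n : ℝ) - δ)) :=
    card_biUnion_real _ _ _ fun q hq => by
      obtain ⟨-, f1, f2, f3, f4, f5⟩ := Finset.mem_filter.1 hq
      exact one_cop h0 hB f1 f2 f3 f4 f5
  have e4 : (s.card : ℝ) ≤ S1.card + S2.card + S3.card := by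
    have e5 : s.card ≤ S1.card + S2.card + S3.card :=
      (Finset.card_le_card hsub).trans ((Finset.card_union_le _ _).trans
        (Nat.add_le_add_right (Finset.card_union_le _ _) _))
    exact_mod_cast e5
  calc (s.card : ℝ) ≤ S1.card + S2.card + S3.card := e4
    _ ≤ (pairs n).card * (3 ^ (n + 1) * (B : ℝ) ^ ((n : ℝ) - δ)) +
        (pairs n).card * (8 * 3 ^ n * (B : ℝ) ^ ((n : ℝ) - δ)) +
        (quads n).card * (32 * 3 ^ n * (B : ℝ) ^ ((n : ℝ) - δ)) := by linarith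
    _ = _ := by ring

end Pool.Agent.Helper53.FJ
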