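import Mathlib

/-!
# Counting tuples of integers with exceptional differences
-/

set_option autoImplicit false

open Finset

namespace Pool.Agent.Helper53.FJ

/-- The tuples of integers of absolute value at most `B`. -/
noncomputable def box (n B : ℕ) : Finset (Fin n → ℤ) := Fintype.piFinset fun _ => Finset.Icc (-(B : ℤ)) B

lemma mem_box {n B : ℕ} {a : Fin n → ℤ} : a ∈ box n B ↔ ∀ i, |a i| ≤ B := by
  simp [box, Fintype.mem_piFinset, abs_le]

lemma card_Icc_sym (B : ℕ) : (Finset.Icc (-(B : ℤ)) B).card = 2 * B + 1 := by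
  rw [Int.card_Icc]
  omega

lemma card_box (n B : ℕ) : (box n B).card = (2 * B + 1) ^ n := by
  rw [box, Fintype.card_piFinset]
  simp only [card_Icc_sym]
  simp

/-- One difference. -/
lemma count_one {n B : ℕ} {u u' : Fin n} (h : u ≠ u') (S : Finset ℤ) :
    ((box n B).filter fun a => a u - a u' ∈ S).card ≤ (2 * B + 1) ^ (n - 1) * S.card := by
  classical
  let T : Fin n → Finset ℤ := fun i => if i = u then S else Finset.Icc (-(B : ℤ)) B
  have hT : (Fintype.piFinset T).card = (2 * B + 1) ^ (n - 1) * S.card := by
    rw [Fintype.card_piFinset, ← Finset.mul_prod_erase _ _ (Finset.mem_univ u)]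
    have h1 : (T u).card = S.card := by simp [T]
    have h2 : ∏ i ∈ Finset.univ.erase u, (T i).card = (2 * B + 1) ^ (n - 1) := by
      have h3 : ∀ i ∈ Finset.univ.erase u, (T i).card = 2 * B + 1 := by
        intro i hi
        have : i ≠ u := (Finset.mem_erase.1 hi).1
        simp only [T, this, if_false, card_Icc_sym]
      rw [Finset.prod_congr rfl h3, Finset.prod_const, Finset.card_erase_of_mem (Finset.mem_univ u)]
      simp
    rw [h1, h2, mul_comm]
  rw [← hT]
  refine Finset.card_le_card_of_injOn (fun a => Function.update a u (a u - a u')) ?_ ?_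
  · intro a ha
    rw [Finset.mem_coe, Finset.mem_filter, mem_box] at ha
    rw [Finset.mem_coe, Fintype.mem_piFinset]
    intro i
    by_cases hi : i = u
    · subst hi
      simp only [T, if_true, Function.update_self]
      exact ha.2
    · simp only [T, hi, if_false, Function.update_of_ne hi, Finset.mem_Icc]
      exact abs_le.1 (ha.1 i)
  · intro a _ b _ hab
    have h1 : ∀ i, i ≠ u → a i = b i := by
      intro i hi
      have := congrFun hab i
      simpa [Function.update_of_ne hi] using this
    have h2 : a u - a u' = b u - b u' := by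
      have := congrFun hab u
      simpa using this
    funext i
    by_cases hi : i = u
    · subst hi
      have := h1 u' h.symm
      omega
    · exact h1 i hi

/-- Two differences. -/
lemma count_two {n B : ℕ} {u u' v v' : Fin n} (huv : u ≠ v) (h1 : u' ≠ u) (h2 : u' ≠ v) (h3 : v' ≠ u)
    (h4 : v' ≠ v) (S S' : Finset ℤ) :
    ((box n B).filter fun a => a u - a u' ∈ S ∧ a v - a v' ∈ S').card ≤
      (2 * B + 1) ^ (n - 2) * (S.card * S'.card) := by
  classical
  let T : Fin n → Finset ℤ := fun i => if i = u then S else if i = v then S' else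
    Finset.Icc (-(B : ℤ)) B
  have hT : (Fintype.piFinset T).card = (2 * B + 1) ^ (n - 2) * (S.card * S'.card) := by
    have hv : v ∈ Finset.univ.erase u := Finset.mem_erase.2 ⟨huv.symm, Finset.mem_univ v⟩
    rw [Fintype.card_piFinset, ← Finset.mul_prod_erase _ _ (Finset.mem_univ u),
      ← Finset.mul_prod_erase _ _ hv]
    have h5 : (T u).card = S.card := by simp [T]
    have h6 : (T v).card = S'.card := by simp [T, huv.symm]
    have h7 : ∏ i ∈ (Finset.univ.erase u).erase v, (T i).card = (2 * B + 1) ^ (n - 2) := by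
      have h8 : ∀ i ∈ (Finset.univ.erase u).erase v, (T i).card = 2 * B + 1 := by
        intro i hi
        have hi1 : i ≠ v := (Finset.mem_erase.1 hi).1
        have hi2 : i ≠ u := (Finset.mem_erase.1 (Finset.mem_erase.1 hi).2).1
        simp only [T, hi1, hi2, if_false, card_Icc_sym]
      rw [Finset.prod_congr rfl h8, Finset.prod_const, Finset.card_erase_of_mem hv,
        Finset.card_erase_of_mem (Finset.mem_univ u)]
      simp only [Finset.card_univ, Fintype.card_fin]
      rfl
    rw [h5, h6, h7]
    ring
  rw [← hT]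
  refine Finset.card_le_card_of_injOn
    (fun a => Function.update (Function.update a u (a u - a u')) v (a v - a v')) ?_ ?_
  · intro a ha
    rw [Finset.mem_coe, Finset.mem_filter, mem_box] at ha
    rw [Finset.mem_coe, Fintype.mem_piFinset]
    intro i
    by_cases hi : i = v
    · subst hi
      simp only [T, huv.symm, if_false, if_true, Function.update_self]
      exact ha.2.2
    · by_cases hi' : i = u
      · subst hi'
        simp only [T, if_true, Function.update_of_ne hi, Function.update_self]
        exact ha.2.1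
      · simp only [T, hi, hi', if_false, Function.update_of_ne hi, Function.update_of_ne hi',
          Finset.mem_Icc]
        exact abs_le.1 (ha.1 i)
  · intro a _ b _ hab
    have e1 : ∀ i, i ≠ u → i ≠ v → a i = b i := by
      intro i hi hi'
      have := congrFun hab i
      simpa [Function.update_of_ne hi, Function.update_of_ne hi'] using this
    have e2 : a v - a v' = b v - b v' := by
      have := congrFun hab v
      simpa using this
    have e3 : a u - a u' = b u - b u' := by
      have := congrFun hab u
      simpa [Function.update_of_ne huv] using this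
    have e4 := e1 u' h1 h2
    have e5 := e1 v' h3 h4
    funext i
    by_cases hi : i = u
    · subst hi
      omega
    · by_cases hi' : i = v
      · subst hi'
        omega
      · exact e1 i hi hi'

/-- The nonzero multiples of `d` of absolute value at most `2 B`. -/
noncomputable def mult (B d : ℕ) : Finset ℤ :=
  (Finset.Icc (-(2 * B : ℤ)) (2 * B)).filter fun z => z ≠ 0 ∧ (d : ℤ) ∣ z

lemma card_mult (B d : ℕ) (hd : 1 ≤ d) : ((mult B d).card : ℝ) ≤ 4 * B / d := by
  have h1 : (mult B d).card ≤ 2 * (2 * B / d) := by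
    have h2 : mult B d ⊆ ((Finset.Icc (-((2 * B / d : ℕ) : ℤ)) ((2 * B / d : ℕ) : ℤ)).erase 0).image
        (fun k => (d : ℤ) * k) := by
      intro z hz
      rw [mult, Finset.mem_filter, Finset.mem_Icc] at hz
      obtain ⟨⟨h3, h4⟩, h5, k, rfl⟩ := hz
      rw [Finset.mem_image]
      refine ⟨k, ?_, rfl⟩
      have hd' : (0 : ℤ) < d := by exact_mod_cast hd
      have hk : k ≠ 0 := by
        rintro rfl
        simp at h5
      rw [Finset.mem_erase, Finset.mem_Icc]
      have h6 : |k| ≤ ((2 * B / d : ℕ) : ℤ) := by
        push_cast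
        rw [Int.le_ediv_iff_mul_le hd']
        have h7 : |(d : ℤ) * k| ≤ 2 * B := abs_le.2 ⟨h3, h4⟩
        rw [abs_mul, abs_of_pos hd'] at h7
        linarith [mul_comm (|k|) (d : ℤ)]
      exact ⟨hk, abs_le.1 h6⟩
    refine (Finset.card_le_card h2).trans (Finset.card_image_le.trans ?_)
    have h8 : (0 : ℤ) ∈ Finset.Icc (-((2 * B / d : ℕ) : ℤ)) ((2 * B / d : ℕ) : ℤ) :=
      Finset.mem_Icc.2 ⟨neg_nonpos.2 (Int.natCast_nonneg _), Int.natCast_nonneg _⟩
    rw [Finset.card_erase_of_mem h8, card_Icc_sym]
    omega
  have h2 : ((2 * B / d : ℕ) : ℝ) ≤ ((2 * B : ℕ) : ℝ) / d := Nat.cast_div_le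
  have h3 : ((mult B d).card : ℝ) ≤ 2 * ((2 * B / d : ℕ) : ℝ) := by exact_mod_cast h1
  push_cast at h2
  calc ((mult B d).card : ℝ) ≤ 2 * ((2 * B / d : ℕ) : ℝ) := h3
    _ ≤ 2 * (2 * B / d) := by linarith
    _ = 4 * B / d := by ring

/-- The tail of the sum of the inverse squares. -/
lemma tail_sq (k m : ℕ) (hk : 1 ≤ k) : ∑ e ∈ Finset.Ioc k m, (1 : ℝ) / (e : ℝ) ^ 2 ≤ 1 / k := by
  rcases le_total k m with h | h
  · have h1 := sum_Ioc_inv_sq_le_sub (α := ℝ) (k := k) (n := m) (by omega) h
    simp only [one_div]
    refine h1.trans ?_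
    have : (0 : ℝ) ≤ (m : ℝ)⁻¹ := by positivity
    linarith
  · rw [Finset.Ioc_eq_empty (by omega)]
    simp

end Pool.Agent.Helper53.FJ
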