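import Pool.Agent.Helper53.FJ.Main

/-!
# The product of the weak primes, and the form without hypotheses
-/

set_option autoImplicit false

open Finset MeasureTheory
open scoped ENNReal

namespace Pool.Agent.Helper53.FJ

/-- The product of the weak primes. -/
noncomputable def weakProd {n : ℕ} (a : Fin n → ℤ) : ℕ := ∏ᶠ p ∈ {p | Weak a p}, p

/-- The inequality `-(1 / 2) log (period g a) ≤ h`. -/
def HeightLe (g : ℕ) {n : ℕ} (a : Fin n → ℤ) (h : ℝ) : Prop :=
  ENNReal.ofReal (Real.exp (-2 * h)) ≤ period g a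

lemma weak_finite {n : ℕ} {a : Fin n → ℤ} (ha : Function.Injective a) : {p | Weak a p}.Finite := by
  classical
  refine Set.Finite.subset ((Finset.univ.biUnion fun q : Fin n × Fin n =>
    (diff a q).primeFactors).finite_toSet) ?_
  rintro p ⟨hp, -, i, j, hij, hd, -⟩
  rw [Finset.mem_coe, Finset.mem_biUnion]
  refine ⟨(i, j), Finset.mem_univ _, ?_⟩
  rw [Nat.mem_primeFactors]
  refine ⟨hp, dvd_diff.2 hd, ?_⟩
  rw [diff, Int.natAbs_ne_zero, sub_ne_zero]
  exact fun h => hij.ne (ha h)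

lemma weakProd_eq {n : ℕ} {a : Fin n → ℤ} (h : {p | Weak a p}.Finite) :
    weakProd a = ∏ p ∈ h.toFinset, p :=
  finprod_mem_eq_finite_toFinset_prod _ h

lemma weakProd_pos {n : ℕ} {a : Fin n → ℤ} (h : {p | Weak a p}.Finite) : 0 < weakProd a := by
  rw [weakProd_eq h]
  exact Finset.prod_pos fun p hp => (h.mem_toFinset.1 hp).1.pos

lemma dvd_weakProd {n : ℕ} {a : Fin n → ℤ} (h : {p | Weak a p}.Finite) {p : ℕ} (hp : Weak a p) :
    p ∣ weakProd a := by
  rw [weakProd_eq h]
  exact Finset.dvd_prod_of_mem _ (h.mem_toFinset.2 hp)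

lemma weakProd_dvd {n : ℕ} {a : Fin n → ℤ} (h : {p | Weak a p}.Finite) {N : ℕ}
    (hN : ∀ p, Weak a p → p ∣ N) : weakProd a ∣ N := by
  rw [weakProd_eq h]
  exact Finset.prod_primes_dvd N (fun p hp => (h.mem_toFinset.1 hp).1.prime)
    fun p hp => hN p (h.mem_toFinset.1 hp)

theorem all_but_few {g n : ℕ} (hg : 1 ≤ g) (hn : n = 2 * g + 1 ∨ n = 2 * g + 2) {κ c : ℝ}
    (hκ : (g : ℝ) / (4 * g + 2) < κ) : ∃ δ : ℝ, 0 < δ ∧ ∃ C : ℝ, ∀ B : ℕ, 1 ≤ B →
    ∃ E : Finset (Fin n → ℤ), (E.card : ℝ) ≤ C * (B : ℝ) ^ ((n : ℝ) - δ) ∧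
      ∀ a : Fin n → ℤ, a ∉ E → (∀ i, |a i| ≤ B) → Function.Injective a →
        HeightLe g a (κ * Real.log (weakProd a) + c) := by
  classical
  obtain ⟨δ, hδ, C, hC⟩ := almost_all (c₀ := 0) (c := c) hg hn hκ
  refine ⟨δ, hδ, C, fun B hB => ?_⟩
  let E : Finset (Fin n → ℤ) := (box n B).filter fun a => Function.Injective a ∧
    ¬ HeightLe g a (κ * Real.log (weakProd a) + c)
  refine ⟨E, hC B hB E fun a ha => ?_, fun a ha h1 h2 => ?_⟩
  · obtain ⟨hbox, hinj, hH⟩ := Finset.mem_filter.1 ha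
    have hbox' := mem_box.1 hbox
    have hfin := weak_finite hinj
    have hlt : period g a < ENNReal.ofReal
        (Real.exp (-2 * (κ * Real.log (weakProd a) + c))) := not_le.1 hH
    have hne : period g a ≠ ∞ := (hlt.trans_le le_top).ne
    have hpos : 0 < (period g a).toReal := by
      refine ENNReal.toReal_pos ?_ hne
      have h5 := period_large (n := n) hg hB hbox'
      have hB0 : (0 : ℝ) < B := by exact_mod_cast hB
      have hc := cst_pos (n := n) hg
      have h6 : 0 < cst g n * (B : ℝ) ^ (-((n : ℝ) * g - g ^ 2 - g)) := by positivity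
      exact ((ENNReal.ofReal_pos.2 h6).trans_le h5).ne'
    have h7 : (period g a).toReal < Real.exp (-2 * (κ * Real.log (weakProd a) + c)) := by
      have := (ENNReal.toReal_lt_toReal hne ENNReal.ofReal_ne_top).2 hlt
      rwa [ENNReal.toReal_ofReal (Real.exp_pos _).le] at this
    have h8 := Real.log_lt_log hpos h7
    rw [Real.log_exp] at h8
    exact ⟨hbox', hinj, hne, -(1 / 2) * Real.log (period g a).toReal, weakProd a,
      weakProd_pos hfin, fun p hp => dvd_weakProd hfin hp, by linarith, by linarith⟩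
  · by_contra hH
    exact ha (Finset.mem_filter.2 ⟨mem_box.2 h1, h2, hH⟩)

end Pool.Agent.Helper53.FJ
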