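import Pool.Agent.Helper53.FJ.Period

/-!
# Frey's inequality for almost all tuples
-/

set_option autoImplicit false

open Finset MeasureTheory
open scoped ENNReal

namespace Pool.Agent.Helper53.FJ

/-- The bound for the height. -/
lemma height_bound {g n B : ℕ} (hg : 1 ≤ g) (hB : 1 ≤ B) {a : Fin n → ℤ} (ha : ∀ i, |a i| ≤ B)
    {h c₀ : ℝ} (hfin : period g a ≠ ∞) (hh : h ≤ -(1 / 2) * Real.log (period g a).toReal + c₀) :
    h ≤ ((n : ℝ) * g - g ^ 2 - g) / 2 * Real.log B + (-(1 / 2) * Real.log (cst g n) + c₀) := by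
  have hB' : (1 : ℝ) ≤ B := by exact_mod_cast hB
  have hB0 : (0 : ℝ) < B := by linarith
  have hc := cst_pos (n := n) hg
  have h1 := period_large hg hB ha
  have h2 : 0 < cst g n * (B : ℝ) ^ (-((n : ℝ) * g - g ^ 2 - g)) := by positivity
  have h3 : cst g n * (B : ℝ) ^ (-((n : ℝ) * g - g ^ 2 - g)) ≤ (period g a).toReal := by
    have h4 := ENNReal.toReal_mono hfin h1
    rwa [ENNReal.toReal_ofReal h2.le] at h4
  have h5 := Real.log_le_log h2 h3
  rw [Real.log_mul hc.ne' (by positivity), Real.log_rpow hB0] at h5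
  nlinarith

theorem almost_all {g n : ℕ} (hg : 1 ≤ g) (hn : n = 2 * g + 1 ∨ n = 2 * g + 2) {c₀ κ c : ℝ}
    (hκ : (g : ℝ) / (4 * g + 2) < κ) : ∃ δ : ℝ, 0 < δ ∧ ∃ C : ℝ, ∀ B : ℕ, 1 ≤ B →
    ∀ s : Finset (Fin n → ℤ), (∀ a ∈ s, (∀ i, |a i| ≤ B) ∧ Function.Injective a ∧
      period g a ≠ ∞ ∧ ∃ (h : ℝ) (N : ℕ), 0 < N ∧ (∀ p, Weak a p → p ∣ N) ∧
        h ≤ -(1 / 2) * Real.log (period g a).toReal + c₀ ∧ κ * Real.log N + c < h) →
      (s.card : ℝ) ≤ C * (B : ℝ) ^ ((n : ℝ) - δ) := by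
  classical
  have hg' : (1 : ℝ) ≤ g := by exact_mod_cast hg
  let P : ℝ := (Q n).card
  let E : ℝ := (n : ℝ) * g - g ^ 2 - g
  let κ₀ : ℝ := (g : ℝ) / (4 * g + 2)
  have hP : 2 * P = (n : ℝ) * (n - 1) := by
    have h1 := card_Q n
    have h2 : 1 ≤ n := by omega
    have h3 : ((2 * (Q n).card : ℕ) : ℝ) = ((n * (n - 1) : ℕ) : ℝ) := by rw [h1]
    push_cast [Nat.cast_sub h2] at h3
    exact h3
  have hE : E = 2 * κ₀ * P := by
    have h1 : 2 * κ₀ * P = κ₀ * (2 * P) := by ring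
    rw [h1, hP]
    simp only [E, κ₀]
    rcases hn with h | h
    · rw [h]
      push_cast
      field_simp
      ring
    · rw [h]
      push_cast
      field_simp
      ring
  have hP1 : 1 ≤ P := by
    have h1 : (3 : ℝ) ≤ n := by
      have : 3 ≤ n := by omega
      exact_mod_cast this
    nlinarith
  have hκ₀ : 0 < κ₀ := by positivity
  have hκp : 0 < κ := hκ₀.trans hκ
  let δ : ℝ := min (1 / 2) ((κ - κ₀) / (2 * κ * (P + 3)))
  have hδ0 : 0 < δ := by
    refine lt_min (by norm_num) ?_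
    have : 0 < κ - κ₀ := sub_pos.2 hκ
    positivity
  have hδ1 : δ < 1 := (min_le_left _ _).trans_lt (by norm_num)
  have hδ2 : κ * (P + 3) * δ ≤ (κ - κ₀) / 2 := by
    have h1 : δ ≤ (κ - κ₀) / (2 * κ * (P + 3)) := min_le_right _ _
    have h2 : κ * (P + 3) * δ ≤ κ * (P + 3) * ((κ - κ₀) / (2 * κ * (P + 3))) :=
      mul_le_mul_of_nonneg_left h1 (by positivity)
    refine h2.trans (le_of_eq ?_)
    field_simp
  let η : ℝ := (κ - κ₀) / 2 * P
  have hη : 0 < η := by
    have : 0 < κ - κ₀ := sub_pos.2 hκ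
    positivity
  let c₁ : ℝ := -(1 / 2) * Real.log (cst g n) + c₀
  let L : ℝ := (c₁ - c + κ * P * Real.log 2) / η
  obtain ⟨C₁, hC₁, hbad⟩ := count_bad n hδ0 hδ1
  refine ⟨δ, hδ0, C₁ + (2 * Real.exp L + 1) ^ n, fun B hB s hs => ?_⟩
  have hB' : (1 : ℝ) ≤ B := by exact_mod_cast hB
  have hB0 : (0 : ℝ) < B := by linarith
  have hnδ : (1 : ℝ) ≤ (B : ℝ) ^ ((n : ℝ) - δ) := by
    refine Real.one_le_rpow hB' ?_
    have : (3 : ℝ) ≤ n := by
      have : 3 ≤ n := by omega
      exact_mod_cast this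
    linarith
  have hexp : 0 < Real.exp L := Real.exp_pos L
  by_cases hex : ∃ a ∈ s, Good n B δ a
  · -- the box is small
    obtain ⟨a, has, hgood⟩ := hex
    obtain ⟨ha, hinj, hfin, h, N, hN0, hN, hh, hviol⟩ := hs a has
    have h1 := conductor_large hδ0 hB hinj hgood hN0 hN
    have h2 := height_bound hg hB ha hfin hh
    have h3 : P * ((1 - (P + 3) * δ) * Real.log B - Real.log 2) ≤ Real.log N := by
      have h4 : 0 < ((B : ℝ) ^ (1 - (P + 3) * δ) / 2) ^ (Q n).card := by positivity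
      have h5 := Real.log_le_log h4 h1
      rw [Real.log_pow, Real.log_div (by positivity) (by norm_num), Real.log_rpow hB0] at h5
      exact h5
    have hlogB : 0 ≤ Real.log B := Real.log_nonneg hB'
    have h6 : κ * (P * ((1 - (P + 3) * δ) * Real.log B - Real.log 2)) ≤ κ * Real.log N :=
      mul_le_mul_of_nonneg_left h3 hκp.le
    have h7 : κ * (P * ((1 - (P + 3) * δ) * Real.log B - Real.log 2)) =
        (κ * P - P * (κ * (P + 3) * δ)) * Real.log B - κ * P * Real.log 2 := by ring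
    have h8 : (κ * P - P * ((κ - κ₀) / 2)) * Real.log B ≤
        (κ * P - P * (κ * (P + 3) * δ)) * Real.log B := by
      refine mul_le_mul_of_nonneg_right ?_ hlogB
      have := mul_le_mul_of_nonneg_left hδ2 (by linarith : (0 : ℝ) ≤ P)
      linarith
    have h9 : E / 2 * Real.log B = κ₀ * P * Real.log B := by rw [hE]; ring
    have h10 : η * Real.log B < c₁ - c + κ * P * Real.log 2 := by
      have e1 : η * Real.log B = (κ * P - P * ((κ - κ₀) / 2)) * Real.log B -
          κ₀ * P * Real.log B := by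
        simp only [η]
        ring
      have e2 : h ≤ E / 2 * Real.log B + c₁ := h2
      rw [e1]
      linarith
    have h11 : Real.log B < L := by
      rw [lt_div_iff₀ hη]
      linarith
    have h12 : (B : ℝ) < Real.exp L := by
      rw [← Real.exp_log hB0]
      exact Real.exp_lt_exp.2 h11
    have h13 : s ⊆ box n B := fun b hb => mem_box.2 (hs b hb).1
    have h14 : (s.card : ℝ) ≤ (2 * (B : ℝ) + 1) ^ n := by
      have := Finset.card_le_card h13
      rw [card_box] at this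
      exact_mod_cast this
    have h15 : (2 * (B : ℝ) + 1) ^ n ≤ (2 * Real.exp L + 1) ^ n :=
      pow_le_pow_left₀ (by positivity) (by linarith) _
    calc (s.card : ℝ) ≤ (2 * Real.exp L + 1) ^ n := h14.trans h15
      _ ≤ C₁ + (2 * Real.exp L + 1) ^ n := by linarith
      _ ≤ (C₁ + (2 * Real.exp L + 1) ^ n) * (B : ℝ) ^ ((n : ℝ) - δ) :=
          le_mul_of_one_le_right (by positivity) hnδ
  · push Not at hex
    have h1 := hbad B hB s fun a ha => ⟨(hs a ha).1, (hs a ha).2.1, hex a ha⟩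
    refine h1.trans (mul_le_mul_of_nonneg_right ?_ (by positivity))
    have : 0 ≤ (2 * Real.exp L + 1) ^ n := by positivity
    linarith

end Pool.Agent.Helper53.FJ
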