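import Pool.Agent.Helper53.FJ.Arith

/-!
# The volume of the Jacobian of a hyperelliptic curve
-/

set_option autoImplicit false

open Finset MeasureTheory
open scoped ENNReal

namespace Pool.Agent.Helper53.FJ

/-- The integral of `∏ |x_j - x_k| ^ 2 / ∏ |f (x_k)|` over `ℂ ^ g`, where `f = ∏ (x - a_i)`. -/
noncomputable def period (g : ℕ) {n : ℕ} (a : Fin n → ℤ) : ℝ≥0∞ :=
  ∫⁻ x : Fin g → ℂ, ENNReal.ofReal (∏ q ∈ Q g, ‖x q.1 - x q.2‖ ^ 2) /
    ENNReal.ofReal (∏ k, ‖∏ i, (x k - ((a i : ℤ) : ℂ))‖)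

/-- The centres of the discs. -/
noncomputable def ctr (g B : ℕ) (k : Fin g) : ℂ := ((B * (k : ℕ) / g : ℝ) : ℂ)

lemma region_norm {g B : ℕ} (hg : 1 ≤ g) (hB : 1 ≤ B) {k : Fin g} {z : ℂ}
    (hz : z ∈ Metric.ball (ctr g B k) (B / (4 * g))) : ‖z‖ ≤ B := by
  have hg' : (1 : ℝ) ≤ g := by exact_mod_cast hg
  have hB' : (1 : ℝ) ≤ B := by exact_mod_cast hB
  have h1 : ‖z - ctr g B k‖ < B / (4 * g) := by
    rw [Metric.mem_ball, dist_eq_norm] at hz
    exact hz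
  have h2 : ‖ctr g B k‖ = B * (k : ℕ) / g := by
    rw [ctr, Complex.norm_real, Real.norm_of_nonneg (by positivity)]
  have h3 : ((k : ℕ) : ℝ) ≤ g - 1 := by
    have : (k : ℕ) + 1 ≤ g := k.2
    have : ((k : ℕ) : ℝ) + 1 ≤ g := by exact_mod_cast this
    linarith
  have h4 : ‖z‖ ≤ ‖z - ctr g B k‖ + ‖ctr g B k‖ := by
    have := norm_add_le (z - ctr g B k) (ctr g B k)
    simpa using this
  have h5 : (B : ℝ) * (k : ℕ) / g ≤ B * (g - 1) / g := by gcongr
  have h6 : (B : ℝ) * (g - 1) / g + B / (4 * g) ≤ B := by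
    have e1 : (B : ℝ) * (g - 1) / g + B / (4 * g) = B - (3 / 4) * (B / g) := by
      field_simp
      ring
    rw [e1]
    have : 0 ≤ (B : ℝ) / g := by positivity
    linarith
  linarith

lemma region_diff {g B : ℕ} (hg : 1 ≤ g) {j k : Fin g} (hjk : j ≠ k) {z w : ℂ}
    (hz : z ∈ Metric.ball (ctr g B j) (B / (4 * g))) (hw : w ∈ Metric.ball (ctr g B k) (B / (4 * g))) :
    (B : ℝ) / (2 * g) ≤ ‖z - w‖ := by
  have hg' : (1 : ℝ) ≤ g := by exact_mod_cast hg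
  rw [Metric.mem_ball, dist_eq_norm] at hz hw
  have h1 : (B : ℝ) / g ≤ ‖ctr g B j - ctr g B k‖ := by
    have e1 : ctr g B j - ctr g B k = ((B * (((j : ℕ) : ℝ) - (k : ℕ)) / g : ℝ) : ℂ) := by
      rw [ctr, ctr, ← Complex.ofReal_sub]
      congr 1
      ring
    rw [e1, Complex.norm_real, Real.norm_eq_abs, abs_div, abs_mul, abs_of_nonneg (by positivity : (0 : ℝ) ≤ B),
      abs_of_nonneg (by positivity : (0 : ℝ) ≤ g)]
    have h2 : (1 : ℝ) ≤ |((j : ℕ) : ℝ) - (k : ℕ)| := by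
      have h3 : ((j : ℕ) : ℤ) - (k : ℕ) ≠ 0 := by
        intro h
        apply hjk
        apply Fin.ext
        omega
      have h4 := Int.one_le_abs h3
      exact_mod_cast h4
    gcongr
    nlinarith [(Nat.cast_nonneg B : (0 : ℝ) ≤ B)]
  have h2 : ‖ctr g B j - ctr g B k‖ ≤ ‖z - ctr g B j‖ + ‖z - w‖ + ‖w - ctr g B k‖ := by
    have e1 : ctr g B j - ctr g B k = -(z - ctr g B j) + (z - w) + (w - ctr g B k) := by ring
    rw [e1]
    refine (norm_add_le _ _).trans (add_le_add ((norm_add_le _ _).trans ?_) le_rfl)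
    rw [norm_neg]
  have h3 : (B : ℝ) / g = B / (4 * g) + B / (4 * g) + B / (2 * g) := by
    field_simp
    ring
  linarith

/-- The constant. -/
noncomputable def cst (g n : ℕ) : ℝ :=
  ((1 : ℝ) / (2 * g)) ^ (2 * (Q g).card) / ((2 : ℝ) ^ n) ^ g * ((1 / (4 * (g : ℝ))) ^ 2 * Real.pi) ^ g

lemma cst_pos {g n : ℕ} (hg : 1 ≤ g) : 0 < cst g n := by
  have hg' : (0 : ℝ) < g := by exact_mod_cast hg
  unfold cst
  have := Real.pi_pos
  positivity

/-- **Lower bound for the period.** -/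
theorem period_large {g n B : ℕ} (hg : 1 ≤ g) (hB : 1 ≤ B) {a : Fin n → ℤ} (ha : ∀ i, |a i| ≤ B) :
    ENNReal.ofReal (cst g n * (B : ℝ) ^ (-((n : ℝ) * g - g ^ 2 - g))) ≤ period g a := by
  have hg' : (0 : ℝ) < g := by exact_mod_cast hg
  have hB' : (1 : ℝ) ≤ B := by exact_mod_cast hB
  have hB0 : (0 : ℝ) < B := by linarith
  let r : ℝ := B / (4 * g)
  let R : Set (Fin g → ℂ) := Set.pi Set.univ fun k => Metric.ball (ctr g B k) r
  have hR : MeasurableSet R := MeasurableSet.univ_pi fun k => measurableSet_ball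
  have hvol : volume R = ENNReal.ofReal ((r ^ 2 * Real.pi) ^ g) := by
    rw [volume_pi_pi]
    simp only [Complex.volume_ball]
    rw [Finset.prod_const, Finset.card_univ, Fintype.card_fin]
    have e1 : ((NNReal.pi : NNReal) : ℝ≥0∞) = ENNReal.ofReal Real.pi := by
      rw [← NNReal.coe_real_pi, ENNReal.ofReal_coe_nnreal]
    rw [e1, ← ENNReal.ofReal_pow (by positivity), ← ENNReal.ofReal_mul (by positivity),
      ← ENNReal.ofReal_pow (by positivity)]
  let v : ℝ := ((B : ℝ) / (2 * g)) ^ (2 * (Q g).card) / ((2 * (B : ℝ)) ^ n) ^ g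
  have hv : 0 ≤ v := by positivity
  have hpt : ∀ x ∈ R, ENNReal.ofReal v ≤ ENNReal.ofReal (∏ q ∈ Q g, ‖x q.1 - x q.2‖ ^ 2) /
      ENNReal.ofReal (∏ k, ‖∏ i, (x k - ((a i : ℤ) : ℂ))‖) := by
    intro x hx
    have hx' : ∀ k, x k ∈ Metric.ball (ctr g B k) (B / (4 * g)) := fun k => hx k (Set.mem_univ k)
    have h1 : ((B : ℝ) / (2 * g)) ^ (2 * (Q g).card) ≤ ∏ q ∈ Q g, ‖x q.1 - x q.2‖ ^ 2 := by
      calc ((B : ℝ) / (2 * g)) ^ (2 * (Q g).card) = ∏ _q ∈ Q g, ((B : ℝ) / (2 * g)) ^ 2 := by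
            rw [Finset.prod_const, ← pow_mul]
        _ ≤ ∏ q ∈ Q g, ‖x q.1 - x q.2‖ ^ 2 := by
            refine Finset.prod_le_prod (fun _ _ => by positivity) fun q hq => ?_
            exact pow_le_pow_left₀ (by positivity)
              (region_diff hg (mem_Q.1 hq).ne (hx' q.1) (hx' q.2)) 2
    have h2 : ∏ k, ‖∏ i, (x k - ((a i : ℤ) : ℂ))‖ ≤ ((2 * (B : ℝ)) ^ n) ^ g := by
      calc ∏ k, ‖∏ i, (x k - ((a i : ℤ) : ℂ))‖ ≤ ∏ _k : Fin g, (2 * (B : ℝ)) ^ n := by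
            refine Finset.prod_le_prod (fun _ _ => by positivity) fun k _ => ?_
            rw [norm_prod]
            calc ∏ i, ‖x k - ((a i : ℤ) : ℂ)‖ ≤ ∏ _i : Fin n, (2 * (B : ℝ)) := by
                  refine Finset.prod_le_prod (fun _ _ => by positivity) fun i _ => ?_
                  have h3 := region_norm hg hB (hx' k)
                  have h4 : ‖((a i : ℤ) : ℂ)‖ ≤ B := by
                    rw [Complex.norm_intCast]
                    exact_mod_cast ha i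
                  have h5 := norm_sub_le (x k) ((a i : ℤ) : ℂ)
                  linarith
              _ = (2 * (B : ℝ)) ^ n := by simp
        _ = ((2 * (B : ℝ)) ^ n) ^ g := by simp
    have h3 : ENNReal.ofReal v = ENNReal.ofReal (((B : ℝ) / (2 * g)) ^ (2 * (Q g).card)) /
        ENNReal.ofReal (((2 * (B : ℝ)) ^ n) ^ g) := ENNReal.ofReal_div_of_pos (by positivity)
    rw [h3]
    exact ENNReal.div_le_div (ENNReal.ofReal_le_ofReal h1) (ENNReal.ofReal_le_ofReal h2)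
  have hQ : (((2 * (Q g).card : ℕ)) : ℝ) = (g : ℝ) ^ 2 - g := by
    rw [card_Q, Nat.cast_mul, Nat.cast_sub hg]
    push_cast
    ring
  have hcst : cst g n * (B : ℝ) ^ (-((n : ℝ) * g - g ^ 2 - g)) = v * (r ^ 2 * Real.pi) ^ g := by
    have e1 : (B : ℝ) ^ (-((n : ℝ) * g - g ^ 2 - g)) =
        (B : ℝ) ^ (2 * (Q g).card) / ((B : ℝ) ^ n) ^ g * ((B : ℝ) ^ 2) ^ g := by
      have e2 : -((n : ℝ) * g - g ^ 2 - g) = (((2 * (Q g).card : ℕ)) : ℝ) - ((n * g : ℕ) : ℝ) +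
          ((2 * g : ℕ) : ℝ) := by
        rw [hQ]
        push_cast
        ring
      rw [e2, Real.rpow_add hB0, Real.rpow_sub hB0, Real.rpow_natCast, Real.rpow_natCast,
        Real.rpow_natCast, pow_mul (B : ℝ) n g, pow_mul (B : ℝ) 2 g]
    rw [e1]
    simp only [cst, v, r, div_pow, mul_pow]
    field_simp
    rw [one_pow, one_pow, one_mul]
  rw [hcst, ENNReal.ofReal_mul hv, ← hvol]
  calc ENNReal.ofReal v * volume R = ∫⁻ _x in R, ENNReal.ofReal v := by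
        rw [setLIntegral_const]
    _ ≤ ∫⁻ x in R, ENNReal.ofReal (∏ q ∈ Q g, ‖x q.1 - x q.2‖ ^ 2) /
        ENNReal.ofReal (∏ k, ‖∏ i, (x k - ((a i : ℤ) : ℂ))‖) := setLIntegral_mono' hR hpt
    _ ≤ period g a := setLIntegral_le_lintegral _ _

end Pool.Agent.Helper53.FJ
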